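import Mathlib

namespace Pool.Agent.H.MP_08c4cb_co

open Finset MeasureTheory Real
open scoped RealInnerProductSpace

lemma blich {E : Type*} [NormedAddCommGroup E] [InnerProductSpace ℝ E] (T : Finset E) (y : E)
    (r : ℝ) (hT : ∀ x ∈ T, ∀ x' ∈ T, x ≠ x' → 1 ≤ dist x x') (hy : ∀ x ∈ T, dist y x < r) :
    (T.card : ℝ) * (1 - 2 * r ^ 2) ≤ 1 := by
  classical
  rcases T.eq_empty_or_nonempty with rfl | hne
  · simp
  have hm : (0 : ℝ) < T.card := by exact_mod_cast hne.card_pos
  have h0 : 0 ≤ ⟪∑ x ∈ T, (x - y), ∑ x ∈ T, (x - y)⟫ := real_inner_self_nonneg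
  rw [sum_inner] at h0
  have h1 : ∀ x ∈ T, ⟪x - y, ∑ x' ∈ T, (x' - y)⟫ ≤ T.card * (r ^ 2 - 1 / 2) + 1 / 2 := by
    intro x hx
    rw [inner_sum]
    calc ∑ x' ∈ T, ⟪x - y, x' - y⟫ ≤ ∑ x' ∈ T, ((r ^ 2 - 1 / 2) + if x = x' then 1 / 2 else 0) := by
          refine sum_le_sum fun x' hx' => ?_
          have a1 : ‖x - y‖ ^ 2 ≤ r ^ 2 := by
            have := hy x hx
            rw [dist_comm, dist_eq_norm] at this
            exact pow_le_pow_left₀ (norm_nonneg _) this.le 2
          have a2 : ‖x' - y‖ ^ 2 ≤ r ^ 2 := by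
            have := hy x' hx'
            rw [dist_comm, dist_eq_norm] at this
            exact pow_le_pow_left₀ (norm_nonneg _) this.le 2
          have a3 := norm_sub_sq_real (x - y) (x' - y)
          split_ifs with h
          · nlinarith [sq_nonneg ‖x - y - (x' - y)‖]
          · have a4 := hT x hx x' hx' h
            rw [dist_eq_norm] at a4
            have a5 : x - y - (x' - y) = x - x' := by abel
            rw [a5] at a3
            nlinarith
      _ = _ := by
          rw [sum_add_distrib, sum_const, nsmul_eq_mul, Finset.sum_ite_eq, if_pos hx]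
  have h2 := h0.trans (sum_le_sum h1)
  rw [sum_const, nsmul_eq_mul] at h2
  have h3 : 0 ≤ (T.card : ℝ) * (r ^ 2 - 1 / 2) + 1 / 2 := by
    by_contra h
    nlinarith
  linarith

/-- admissible configurations -/
def Adm {n : ℕ} (S : Finset (EuclideanSpace ℝ (Fin n))) : Prop :=
  (∀ x ∈ S, ∀ j, 0 ≤ x j ∧ x j ≤ 1) ∧ ∀ x ∈ S, ∀ x' ∈ S, x ≠ x' → 1 ≤ dist x x'

/-- volume of the ball -/
noncomputable def V (n : ℕ) (r : ℝ) : ℝ := r ^ n * (√π ^ n / Gamma (n / 2 + 1))

lemma V_pos (n : ℕ) {r : ℝ} (hr : 0 < r) : 0 < V n r := by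
  have := Real.Gamma_pos_of_pos (show (0 : ℝ) < n / 2 + 1 by positivity)
  have := Real.pi_pos
  unfold V; positivity

lemma vol_ball {n : ℕ} (hn : 1 ≤ n) (x : EuclideanSpace ℝ (Fin n)) {r : ℝ} (hr : 0 < r) :
    volume (Metric.ball x r) = ENNReal.ofReal (V n r) := by
  have : Nonempty (Fin n) := ⟨⟨0, hn⟩⟩
  rw [EuclideanSpace.volume_ball, Fintype.card_fin, V, ENNReal.ofReal_mul (by positivity),
    ENNReal.ofReal_pow hr.le]

lemma vol_box {n : ℕ} (a b : Fin n → ℝ) (hab : ∀ j, a j ≤ b j) :
    volume {y : EuclideanSpace ℝ (Fin n) | ∀ j, a j ≤ y j ∧ y j ≤ b j} =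
      ENNReal.ofReal (∏ j, (b j - a j)) := by
  have e : {y : EuclideanSpace ℝ (Fin n) | ∀ j, a j ≤ y j ∧ y j ≤ b j} =
      (WithLp.ofLp : EuclideanSpace ℝ (Fin n) → (Fin n → ℝ)) ⁻¹'
        (Set.pi Set.univ fun j => Set.Icc (a j) (b j)) := by
    ext y; simp only [Set.mem_preimage, Set.mem_univ_pi, Set.mem_Icc]; rfl
  rw [e, (PiLp.volume_preserving_ofLp (Fin n)).measure_preimage
    (MeasurableSet.univ_pi fun j => measurableSet_Icc).nullMeasurableSet, volume_pi_pi,
    ENNReal.ofReal_prod_of_nonneg (fun j _ => sub_nonneg.2 (hab j))]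
  simp

lemma upper {n : ℕ} (hn : 1 ≤ n) (S : Finset (EuclideanSpace ℝ (Fin n))) (hS : Adm S)
    {r η : ℝ} (hr : 0 < r) (hr2 : 2 * r ^ 2 < 1) (hη : 0 < η) (hη1 : η ≤ 1) (k : ℕ)
    (hk : 1 ≤ k * η ^ 2) :
    S.card * V n r ≤ (1 / (1 - 2 * r ^ 2)) * ((3 / η) ^ k * (1 + 3 * η) ^ n) := by
  classical
  set M : ℝ := 1 / (1 - 2 * r ^ 2) with hM
  have hM0 : 0 < M := by rw [hM]; exact one_div_pos.2 (by linarith)
  let Bx : Finset (Fin n) → Set (EuclideanSpace ℝ (Fin n)) := fun T =>
    {y | ∀ j, (if j ∈ T then -1 else -η) ≤ y j ∧ y j ≤ (if j ∈ T then 2 else 1 + η)}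
  let P := (univ : Finset (Fin n)).powerset.filter (fun T => T.card ≤ k)
  let U := ⋃ T ∈ P, Bx T
  have hBx : ∀ T, volume (Bx T) = ENNReal.ofReal (3 ^ T.card * (1 + 2 * η) ^ (n - T.card)) := by
    intro T
    rw [vol_box _ _ (fun j => by split_ifs <;> linarith)]
    congr 1
    rw [prod_congr rfl (g := fun j => if j ∈ T then (3 : ℝ) else 1 + 2 * η)
      (fun j _ => by split_ifs <;> ring), prod_ite]
    simp only [prod_const]
    congr 2
    · simp
    · rw [filter_not, card_sdiff_of_subset (filter_subset _ _)]; simp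
  have hU : volume U ≤ ENNReal.ofReal ((3 / η) ^ k * (1 + 3 * η) ^ n) := by
    refine (measure_biUnion_finset_le _ _).trans ?_
    simp only [hBx]
    rw [← ENNReal.ofReal_sum_of_nonneg (fun T _ => by positivity)]
    apply ENNReal.ofReal_le_ofReal
    have h1 : (1 : ℝ) ≤ 3 / η := by rw [le_div_iff₀ hη]; linarith
    calc ∑ T ∈ P, (3 : ℝ) ^ T.card * (1 + 2 * η) ^ (n - T.card)
        ≤ ∑ T ∈ P, (3 / η) ^ k * (η ^ T.card * (1 + 2 * η) ^ (n - T.card)) := by
          refine sum_le_sum fun T hT => ?_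
          rw [← mul_assoc]
          refine mul_le_mul_of_nonneg_right ?_ (by positivity)
          calc (3 : ℝ) ^ T.card = (3 / η) ^ T.card * η ^ T.card := by
                rw [← mul_pow]; congr 1; field_simp
            _ ≤ _ := mul_le_mul_of_nonneg_right (pow_le_pow_right₀ h1 (mem_filter.1 hT).2)
                (by positivity)
      _ ≤ ∑ T ∈ (univ : Finset (Fin n)).powerset,
            (3 / η) ^ k * (η ^ T.card * (1 + 2 * η) ^ (n - T.card)) :=
          sum_le_sum_of_subset_of_nonneg (filter_subset _ _) (fun _ _ _ => by positivity)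
      _ = _ := by
          rw [← mul_sum]
          have := Finset.sum_pow_mul_eq_add_pow η (1 + 2 * η) (univ : Finset (Fin n))
          simp only [card_univ, Fintype.card_fin] at this
          rw [this]; congr 2; ring
  have hsub : ∀ x ∈ S, Metric.ball x r ⊆ U := by
    intro x hx y hy
    rw [Metric.mem_ball, EuclideanSpace.dist_eq, Real.sqrt_lt' hr] at hy
    simp only [Real.dist_eq, sq_abs] at hy
    have hy1 : ∑ j, (y j - x j) ^ 2 ≤ 1 := by nlinarith
    let T := univ.filter (fun j => η < |y j - x j|)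
    have hT : T.card ≤ k := by
      have a1 : (T.card : ℝ) * η ^ 2 ≤ ∑ j, (y j - x j) ^ 2 := by
        calc (T.card : ℝ) * η ^ 2 = ∑ j ∈ T, η ^ 2 := by simp
          _ ≤ ∑ j ∈ T, (y j - x j) ^ 2 := by
              refine sum_le_sum fun j hj => ?_
              rw [← sq_abs (y j - x j)]
              exact pow_le_pow_left₀ hη.le (mem_filter.1 hj).2.le 2
          _ ≤ _ := sum_le_sum_of_subset_of_nonneg (filter_subset _ _) (fun _ _ _ => sq_nonneg _)
      have a2 : (T.card : ℝ) * η ^ 2 ≤ k * η ^ 2 := by linarith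
      exact_mod_cast le_of_mul_le_mul_right a2 (by positivity)
    refine Set.mem_biUnion (show T ∈ (P : Set _) from mem_filter.2 ⟨by simp, hT⟩) ?_
    intro j
    have a1 := hS.1 x hx j
    split_ifs with h
    · have a2 : (y j - x j) ^ 2 ≤ 1 :=
        (single_le_sum (f := fun j => (y j - x j) ^ 2) (fun _ _ => sq_nonneg _) (mem_univ j)).trans hy1
      have a3 := abs_le.1 ((sq_le_one_iff_abs_le_one _).1 a2)
      constructor <;> linarith [a3.1, a3.2]
    · have a2 : |y j - x j| ≤ η := by
        by_contra h'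
        exact h (mem_filter.2 ⟨mem_univ _, not_le.1 h'⟩)
      have a3 := abs_le.1 a2
      constructor <;> linarith [a3.1, a3.2]
  have hUm : MeasurableSet U := by
    refine Finset.measurableSet_biUnion _ fun T _ => ?_
    apply IsClosed.measurableSet
    simp only [Bx, Set.ofPred_forall]
    refine isClosed_iInter fun j => IsClosed.and (isClosed_le continuous_const ?_)
      (isClosed_le ?_ continuous_const) <;> fun_prop
  have key : ∑ x ∈ S, volume (Metric.ball x r) ≤ ENNReal.ofReal M * volume U := by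
    calc ∑ x ∈ S, volume (Metric.ball x r)
        = ∫⁻ y, ∑ x ∈ S, (Metric.ball x r).indicator (fun _ => (1 : ENNReal)) y := by
          rw [lintegral_finsetSum _ (fun x _ => measurable_const.indicator measurableSet_ball)]
          refine sum_congr rfl fun x _ => ?_
          rw [lintegral_indicator_const measurableSet_ball, one_mul]
      _ ≤ ∫⁻ y, U.indicator (fun _ => ENNReal.ofReal M) y := by
          refine lintegral_mono fun y => ?_
          by_cases hy : y ∈ U
          · rw [Set.indicator_of_mem hy]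
            have e : ∑ x ∈ S, (Metric.ball x r).indicator (fun _ => (1 : ENNReal)) y =
                ((S.filter (fun x => dist y x < r)).card : ENNReal) := by
              simp only [Set.indicator, Metric.mem_ball]
              simp
            rw [e, ← ENNReal.ofReal_natCast]
            apply ENNReal.ofReal_le_ofReal
            rw [hM, le_div_iff₀ (by linarith)]
            exact blich _ y r (fun x hx x' hx' => hS.2 x (mem_filter.1 hx).1 x' (mem_filter.1 hx').1)
              (fun x hx => (mem_filter.1 hx).2)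
          · rw [Set.indicator_of_notMem hy]
            refine (sum_eq_zero fun x hx => ?_).le
            exact Set.indicator_of_notMem (fun h => hy (hsub x hx h)) _
      _ = _ := lintegral_indicator_const hUm _
  simp only [vol_ball hn _ hr, sum_const, nsmul_eq_mul] at key
  have key2 := key.trans (mul_le_mul_right hU _)
  rw [← ENNReal.ofReal_natCast, ← ENNReal.ofReal_mul (by positivity),
    ← ENNReal.ofReal_mul hM0.le, ENNReal.ofReal_le_ofReal_iff (by positivity)] at key2
  exact key2

lemma lower {n : ℕ} (hn : 1 ≤ n) (S : Finset (EuclideanSpace ℝ (Fin n))) (hS : Adm S)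
    (hmax : ∀ S' : Finset (EuclideanSpace ℝ (Fin n)), Adm S' → S'.card ≤ S.card) :
    1 ≤ S.card * V n 1 := by
  classical
  have hcov : {y : EuclideanSpace ℝ (Fin n) | ∀ j, (0 : ℝ) ≤ y j ∧ y j ≤ 1} ⊆
      ⋃ x ∈ S, Metric.ball x 1 := by
    intro y hy
    by_contra h
    simp only [Set.mem_iUnion, Metric.mem_ball, not_exists, not_lt] at h
    have hyS : y ∉ S := by
      intro h'
      have := h y h'
      norm_num at this
    have := hmax (insert y S) ⟨?_, ?_⟩
    · rw [card_insert_of_notMem hyS] at this; omega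
    · intro x hx
      rcases mem_insert.1 hx with rfl | hx
      · exact hy
      · exact hS.1 x hx
    · intro x hx x' hx' hne
      rcases mem_insert.1 hx with rfl | hx1 <;> rcases mem_insert.1 hx' with rfl | hx2
      · exact absurd rfl hne
      · exact h _ hx2
      · rw [dist_comm]; exact h _ hx1
      · exact hS.2 _ hx1 _ hx2 hne
  have h1 := (measure_mono (μ := volume) hcov).trans (measure_biUnion_finset_le _ _)
  rw [vol_box (fun _ => 0) (fun _ => 1) (fun _ => zero_le_one)] at h1
  simp only [vol_ball hn _ one_pos, sum_const, nsmul_eq_mul, sub_zero, prod_const_one] at h1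
  have := V_pos n one_pos
  rwa [← ENNReal.ofReal_natCast, ← ENNReal.ofReal_mul (by positivity),
    ENNReal.ofReal_le_ofReal_iff (by positivity)] at h1

lemma fact_le (k : ℕ) (hk : 1 ≤ k) : Real.log k.factorial ≤ 1 + (k + 1) * Real.log k - k := by
  induction k, hk using Nat.le_induction with
  | base => simp
  | succ k hk ih =>
    have hk' : (1 : ℝ) ≤ k := by exact_mod_cast hk
    rw [Nat.factorial_succ]
    push_cast
    rw [Real.log_mul (by positivity) (by positivity)]
    have a1 := Real.log_le_sub_one_of_pos (show (0 : ℝ) < k / (k + 1) by positivity)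
    rw [Real.log_div (by positivity) (by positivity)] at a1
    have a2 : ((k : ℝ) + 1) * (Real.log k - Real.log (k + 1)) ≤ (k + 1) * (k / (k + 1) - 1) :=
      mul_le_mul_of_nonneg_left a1 (by positivity)
    have a3 : ((k : ℝ) + 1) * (k / (k + 1) - 1) = -1 := by field_simp; ring
    nlinarith

lemma le_fact (k : ℕ) (hk : 1 ≤ k) : k * Real.log k - k ≤ Real.log k.factorial := by
  have hk' : (1 : ℝ) ≤ k := by exact_mod_cast hk
  have h := Real.pow_div_factorial_le_exp (k : ℝ) (by positivity) k
  have h2 := Real.log_le_log (by positivity) h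
  rw [Real.log_exp, Real.log_div (by positivity) (by positivity), Real.log_pow] at h2
  linarith

lemma gamma_bd (n : ℕ) (hn : 2 ≤ n) :
    |Real.log (Gamma (n / 2 + 1)) - (n / 2 * Real.log (n / 2) - n / 2)| ≤ 2 + 2 * Real.log n := by
  set k := n / 2 with hk
  have hk1 : 1 ≤ k := by omega
  have hk' : (1 : ℝ) ≤ k := by exact_mod_cast hk1
  have hn' : (2 : ℝ) ≤ n := by exact_mod_cast hn
  have b1 : (k : ℝ) ≤ n / 2 := by
    have : 2 * k ≤ n := by omega
    have : (2 : ℝ) * k ≤ n := by exact_mod_cast this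
    linarith
  have b2 : (n : ℝ) / 2 ≤ k + 1 / 2 := by
    have : n ≤ 2 * k + 1 := by omega
    have : (n : ℝ) ≤ 2 * k + 1 := by exact_mod_cast this
    linarith
  have g1 : (k.factorial : ℝ) ≤ Gamma (n / 2 + 1) := by
    rw [← Real.Gamma_nat_eq_factorial]
    exact Real.Gamma_strictMonoOn_Ici.monotoneOn (by simp; linarith) (by simp; linarith)
      (by linarith)
  have g2 : Gamma (n / 2 + 1) ≤ ((k + 1).factorial : ℝ) := by
    rw [← Real.Gamma_nat_eq_factorial]
    exact Real.Gamma_strictMonoOn_Ici.monotoneOn (by simp; linarith) (by simp; linarith)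
      (by push_cast; linarith)
  have l1 := Real.log_le_log (by positivity) g1
  have l2 := Real.log_le_log (lt_of_lt_of_le (by positivity) g1) g2
  have f1 := le_fact k hk1
  have f2 := fact_le (k + 1) (by omega)
  push_cast at f2
  have ln0 : 0 ≤ Real.log (n / 2) := Real.log_nonneg (by linarith)
  have ln1 : Real.log (n / 2) ≤ Real.log n := Real.log_le_log (by linarith) (by linarith)
  have ln2 : Real.log (n / 2 + 1) ≤ Real.log n := Real.log_le_log (by linarith) (by linarith)
  have ln3 : Real.log (k + 1) ≤ Real.log (n / 2 + 1) := Real.log_le_log (by linarith) (by linarith)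
  have ln4 : 0 ≤ Real.log (k + 1) := Real.log_nonneg (by linarith)
  have c1 : k * (Real.log (n / 2) - Real.log k) ≤ 1 / 2 := by
    have a1 := Real.log_le_sub_one_of_pos (show (0 : ℝ) < (n / 2) / k by positivity)
    rw [Real.log_div (by positivity) (by positivity)] at a1
    have a2 := mul_le_mul_of_nonneg_left a1 (show (0 : ℝ) ≤ k by positivity)
    have a3 : (k : ℝ) * ((n / 2) / k - 1) = n / 2 - k := by field_simp
    linarith
  have c2 : n / 2 * (Real.log (n / 2 + 1) - Real.log (n / 2)) ≤ 1 := by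
    have a1 := Real.log_le_sub_one_of_pos (show (0 : ℝ) < (n / 2 + 1) / (n / 2) by positivity)
    rw [Real.log_div (by positivity) (by positivity)] at a1
    have a2 := mul_le_mul_of_nonneg_left a1 (show (0 : ℝ) ≤ n / 2 by positivity)
    have a3 : (n : ℝ) / 2 * ((n / 2 + 1) / (n / 2) - 1) = 1 := by field_simp; ring
    linarith
  rw [abs_le]
  constructor
  · nlinarith
  · have c3 : ((k : ℝ) + 1 + 1) * Real.log (k + 1) ≤ (n / 2 + 2) * Real.log (n / 2 + 1) :=
      mul_le_mul (by linarith) ln3 ln4 (by positivity)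
    nlinarith

lemma log_V (n : ℕ) {r : ℝ} (hr : 0 < r) : Real.log (V n r) =
    n * Real.log r + n / 2 * Real.log π - Real.log (Gamma (n / 2 + 1)) := by
  have := Real.Gamma_pos_of_pos (show (0 : ℝ) < n / 2 + 1 by positivity)
  have := Real.pi_pos
  rw [V, Real.log_mul (by positivity) (by positivity), Real.log_div (by positivity) (by positivity),
    Real.log_pow, Real.log_pow, Real.log_sqrt pi_pos.le]
  ring

lemma small (C ε : ℝ) (hε : 0 < ε) : ∀ᶠ n : ℕ in Filter.atTop, C + 2 * Real.log n ≤ ε * n := by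
  have h1 : ∀ᶠ x : ℝ in Filter.atTop, ‖Real.log x‖ ≤ ε / 4 * ‖x‖ :=
    Real.isLittleO_log_id_atTop.bound (by positivity)
  have h2 := (tendsto_natCast_atTop_atTop (R := ℝ)).eventually
    (h1.and (Filter.eventually_ge_atTop (2 * C / ε)))
  filter_upwards [h2] with n hn
  have a1 := hn.1
  have a2 := hn.2
  rw [Real.norm_eq_abs, Real.norm_eq_abs, abs_of_nonneg (show (0 : ℝ) ≤ n by positivity)] at a1
  rw [div_le_iff₀ hε] at a2
  have := le_abs_self (Real.log n)
  nlinarith

end Pool.Agent.H.MP_08c4cb_co
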